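import Pool.Agent.Run7.h570.WM.Twist
import Pool.Agent.Run7.h570.GH.Res
import Pool.Agent.Z125.UN.Sym

/-!
# The monodromy-weight conjecture is closed under closed-open decompositions
-/

set_option autoImplicit false

open CategoryTheory AlgebraicGeometry Pool.Agent.Y143 Pool.Agent.Y116.UV Pool.Agent.Z125.UN

namespace Run7.h570.WM

/-- `H n w X` is the graded piece of weight `w` of the weight filtration of the cohomology with compact
support `H_c^n(X)` of the scheme `X` over `k`, with the action of a Frobenius element `Φ` of a local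
Galois group and the logarithm of monodromy `N`. -/
structure Coh (k : Type) [Field k] (Ω : Type) [Field Ω] where
  /-- the graded pieces -/
  H : ℤ → ℤ → Sch k → WD Ω

variable {k : Type} [Field k] {Ω : Type} [Field Ω] [CharZero Ω]

/-- `A` and `B` are isomorphic. -/
def WD.Iso (A B : WD Ω) : Prop :=
  ∃ (f : A.Hom B) (g : B.Hom A), (∀ x, g.f (f.f x) = x) ∧ ∀ y, f.f (g.f y) = y

/-- `A` is a direct summand of `B`. -/
def WD.Summand (A B : WD Ω) : Prop :=
  ∃ (s : A.Hom B) (r : B.Hom A), ∀ x, r.f (s.f x) = x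

/-- There is a long exact sequence `⋯ → H n w U → H n w X → H n w Z → H (n + 1) w U → ⋯`. -/
def Coh.Sequence (D : Coh k Ω) (Z X U : Sch k) (w : ℤ) : Prop :=
  ∃ (a : ∀ n, (D.H n w U).Hom (D.H n w X)) (b : ∀ n, (D.H n w X).Hom (D.H n w Z))
    (d : ∀ n, (D.H n w Z).Hom (D.H (n + 1) w U)),
    ∀ n, WD.Exact (a n) (b n) ∧ WD.Exact (b n) (d n) ∧ WD.Exact (d n) (a (n + 1))

/-- `H_c^(n + 2 m)(E) = H_c^n(U)(-m)`, of weight `w + 2 m` if `H_c^n(U)` is of weight `w`. -/
def Coh.Thom (q : ℕ) (D : Coh k Ω) (m : ℕ) (U E : Sch k) : Prop :=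
  ∀ n w, Nonempty (TwIso q m (D.H n w U) (D.H (n + 2 * (m : ℕ)) (w + 2 * (m : ℕ)) E))

/-- The known properties of the graded pieces `H n w X = Gr^W_w H_c^n(X_K̄, ℚ_ℓ)`; here `k` is a finite
extension `K` of `ℚ_p`, or a number field with a place `v` over `p`, `ℓ ≠ p`, and `Φ, N` describe the action
of the Galois group of `K` (of the completion at `v`); `W` is the weight filtration of the theory of
Deligne (hypercoverings), whose graded pieces are subquotients of the cohomology of smooth projective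
varieties, and `H n w X = 0` if `X` is not separated of finite type.

* `mixed`: the eigenvalues of `Φ` are Weil numbers, and `N Φ = q Φ N`;
* `iso`, `les`: functoriality and long exact sequences `H_c^n(U) → H_c^n(X) → H_c^n(Z) → H_c^(n+1)(U)`, exact
  on the graded pieces;
* `bundle`: for the affine bundle `Spec A[w_1, …, w_m] / (∑ f_l w_l - 1) → U` with fibre `𝔸^(m-1)`, where `U`
  is the complement of `f = 0` in `Spec A`: `H_c^(n + 2(m-1))` of the total space is `H_c^n(U)(-(m-1))`;
* `torus`: `H_c^n(X)` is a direct summand of `H_c^(n+1)(X × 𝔾_m)`, of the same weight;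
* `point`, `trivial`: `H_c^0(Spec k)` is trivial of weight `0`, all other groups are zero;
* `proper`: if `X` is smooth and proper, `H^n(X)` is pure of weight `n`. -/
structure IsCoh (q : ℕ) (D : Coh k Ω) : Prop where
  mixed : ∀ n w X, (D.H n w X).Mixed q
  iso : ∀ {X Y : Sch k}, FT True X → Nonempty (X ≅ Y) → ∀ n w, (D.H n w X).Iso (D.H n w Y)
  les : ∀ {Z X U : Sch k} (i : Z ⟶ X) (j : U ⟶ X), FT True X → IsTriple i j → ∀ w,
    D.Sequence Z X U w
  bundle : ∀ (A : Type) [CommRing A] [Algebra k A] [Algebra.FiniteType k A] (m : ℕ)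
    (f : Fin m → A) (U : Sch k) (j : U ⟶ aff k A), IsOpenImmersion j.left →
    Set.range j.left = {x : PrimeSpectrum A | ∃ l, f l ∉ x.asIdeal} →
    D.Thom q (m - 1) U (aff k (Jou f))
  torus : ∀ (A : Type) [CommRing A] [Algebra k A] [Algebra.FiniteType k A] (n w : ℤ),
    (D.H n w (aff k A)).Summand (D.H (n + 1) w (aff k (LaurentPolynomial A)))
  point : ∀ n w, ¬ (n = 0 ∧ w = 0) → Subsingleton (D.H n w (aff k k)).V
  trivial : (D.H 0 0 (aff k k)).Φ = 1 ∧ (D.H 0 0 (aff k k)).N = 0
  proper : ∀ X : Sch k, FT True X → Smooth X.hom → IsProper X.hom → ∀ n w, n ≠ w →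
    Subsingleton (D.H n w X).V

/-- All graded pieces of the cohomology with compact support of `X` are mw pure. -/
def Coh.MW (q : ℕ) (D : Coh k Ω) (X : Sch k) : Prop := ∀ n w, (D.H n w X).Pure q w

/-- The monodromy-weight conjecture in dimension at most `n`: for smooth proper `X` of dimension at most `n`
and all `i` the space `H^i(X)` is mw pure of weight `i`. -/
def Coh.Conj (q : ℕ) (D : Coh k Ω) (n : ℕ) : Prop :=
  ∀ X : Sch k, FT True X → Smooth X.hom → IsProper X.hom → topologicalKrullDim X.left ≤ n →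
    ∀ i : ℤ, (D.H i i X).Pure q i

/-- Resolution of singularities (Nagata, Hironaka): a smooth scheme is open in a smooth proper scheme of the
same dimension, and the boundary has smaller dimension. -/
def Compactifications (k : Type) [Field k] : Prop :=
  ∀ X : Sch k, FT True X → Smooth X.hom → ∃ (Z Y : Sch k) (i : Z ⟶ Y) (j : X ⟶ Y), FT True Y ∧
    IsTriple i j ∧ Smooth Y.hom ∧ IsProper Y.hom ∧
    topologicalKrullDim Y.left ≤ topologicalKrullDim X.left ∧
    topologicalKrullDim Z.left + 1 ≤ topologicalKrullDim X.left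

section

variable [IsAlgClosed Ω] {q : ℕ} {D : Coh k Ω} (hq : 1 < q) (hD : IsCoh q D)

include hq hD

lemma mw_space (n : ℕ) : D.MW q (aff k (MvPolynomial (Fin n) k)) := by
  have h0 : D.MW q (aff k k) := by
    intro i w
    by_cases h : i = 0 ∧ w = 0
    · obtain ⟨rfl, rfl⟩ := h
      exact pure_trivial hq (hD.mixed _ _ _) hD.trivial.1 hD.trivial.2
    · exact pure_zero hq (hD.mixed _ _ _) (hD.point i w h)
  have h2 := hD.bundle k (n + 1) (f1 k n) (aff k k) (𝟙 _) inferInstance (range_id n)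
  have h3 : D.MW q (aff k (Jou (f1 k n))) := by
    intro i w
    obtain ⟨t⟩ := h2 (i - 2 * (n + 1 - 1 : ℕ)) (w - 2 * (n + 1 - 1 : ℕ))
    have h4 := (pure_tw hq (hD.mixed _ _ _) (hD.mixed _ _ _) t _).mp (h0 _ _)
    rwa [sub_add_cancel, sub_add_cancel] at h4
  intro i w
  obtain ⟨f, g, h4, h5⟩ := hD.iso (ft_aff True) ⟨(affIso (jouOne k n)).symm⟩ i w
  first
    | exact pure_retract hq (hD.mixed _ _ _) (hD.mixed _ _ _) g f h5 (h3 i w)
    | exact pure_retract hq (hD.mixed _ _ _) (hD.mixed _ _ _) f g h4 (h3 i w)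

/-- **mw purity of all graded pieces has the closure properties `Bnd`.** -/
theorem bnd_mw : Bnd True fun X : Sch k => D.MW q X where
  iso hX e h := by
    intro n w
    obtain ⟨f, g, h1, h2⟩ := hD.iso hX e n w
    exact pure_retract hq (hD.mixed _ _ _) (hD.mixed _ _ _) g f h2 (h n w)
  total i j hX ht hZ hU := by
    intro n w
    obtain ⟨a, b, d, h⟩ := hD.les i j hX ht w
    obtain ⟨m, rfl⟩ : ∃ m, n = m + 1 := ⟨n - 1, by ring⟩
    exact pure_five hq (hD.mixed _ _ _) (hD.mixed _ _ _) (hD.mixed _ _ _) (hD.mixed _ _ _)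
      (hD.mixed _ _ _) (h m).2.2 (h (m + 1)).1 (h (m + 1)).2.1 (hZ _ _) (hU _ _) (hZ _ _) (hU _ _)
  opened i j hX ht hZ hX' := by
    intro n w
    obtain ⟨a, b, d, h⟩ := hD.les i j hX ht w
    have h2 := pure_five hq (hD.mixed _ _ _) (hD.mixed _ _ _) (hD.mixed _ _ _) (hD.mixed _ _ _)
      (hD.mixed _ _ _) (h (n - 1)).2.1 (h (n - 1)).2.2 (h (n - 1 + 1)).1 (hX' _ w) (hZ _ w) (hX' _ w)
      (hZ _ w)
    rwa [sub_add_cancel] at h2
  closed i j hX ht hX' hU := by
    intro n w
    obtain ⟨a, b, d, h⟩ := hD.les i j hX ht w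
    exact pure_five hq (hD.mixed _ _ _) (hD.mixed _ _ _) (hD.mixed _ _ _) (hD.mixed _ _ _)
      (hD.mixed _ _ _) (h n).1 (h n).2.1 (h n).2.2 (hU _ _) (hX' _ _) (hU _ _) (hX' _ _)
  space := mw_space hq hD
  jouanolou A _ _ _ m f U j hj hr h := by
    intro n w
    obtain ⟨t⟩ := hD.bundle A m f U j hj hr n w
    exact (pure_tw hq (hD.mixed _ _ _) (hD.mixed _ _ _) t _).mpr (h _ _)
  torus A _ _ _ h := by
    intro n w
    obtain ⟨s, r, hs⟩ := hD.torus A n w
    exact pure_retract hq (hD.mixed _ _ _) (hD.mixed _ _ _) s r hs (h _ _)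
  bundle A _ _ _ m f U j hj hr h := by
    intro n w
    obtain ⟨t⟩ := hD.bundle A m f U j hj hr (n - 2 * (m - 1 : ℕ)) (w - 2 * (m - 1 : ℕ))
    have h4 := (pure_tw hq (hD.mixed _ _ _) (hD.mixed _ _ _) t _).mp (h _ _)
    rwa [sub_add_cancel, sub_add_cancel] at h4

/-- for smooth proper schemes all graded pieces are mw pure if the cohomology groups are -/
lemma mw_proper {X : Sch k} (hX : FT True X) (hs : Smooth X.hom) (hp : IsProper X.hom) :
    D.MW q X ↔ ∀ i : ℤ, (D.H i i X).Pure q i := by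
  constructor
  · intro h i
    exact h i i
  · intro h n w
    by_cases hn : n = w
    · subst hn
      exact h n
    · exact pure_zero hq (hD.mixed _ _ _) (hD.proper X hX hs hp n w hn)

end

end Run7.h570.WM
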