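import Pool.Agent.Run7.h570.WM.Coh

/-!
# The monodromy-weight conjecture, cubic hypersurfaces and graph hypersurfaces
-/

set_option autoImplicit false

open CategoryTheory AlgebraicGeometry Pool.Agent.Y143 Pool.Agent.Y116.UV Pool.Agent.Z125.UN

namespace Run7.h570.WM

section empty

variable {k : Type} [Field k] {sep : Prop} {P : Sch k → Prop} (hP : Bnd sep P)

include hP

lemma p_isEmpty (X : Sch k) (hX : FT sep X) (h : IsEmpty X.left) : P X := by
  refine of_affine' (P := fun X => IsEmpty X.left → P X) (sep := sep) ?_ ?_ ?_ X hX h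
  · intro X Y hX e hPX hY
    refine hP.iso hX e (hPX ?_)
    obtain ⟨e⟩ := e
    exact ⟨fun x => hY.elim (e.hom.left x)⟩
  · intro Z X U i j hX ht hZ hU hn
    exact hP.total i j hX ht (hZ ⟨fun x => hn.elim (i.left x)⟩) (hU ⟨fun x => hn.elim (j.left x)⟩)
  · intro A _ _ _ hA
    have h2 : IsEmpty (PrimeSpectrum A) := hA
    exact p_empty hP A (PrimeSpectrum.isEmpty_iff_subsingleton.mp h2)

end empty

lemma ft_cl {k : Type} [Field k] {sep : Prop} {Z X : Sch k} (i : Z ⟶ X) (hX : FT sep X)
    (h : IsClosedImmersion i.left) : FT sep Z where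
  locallyOfFiniteType := by
    have := hX.locallyOfFiniteType
    rw [← Over.w i]
    infer_instance
  quasiCompact := by
    have := hX.quasiCompact
    rw [← Over.w i]
    infer_instance
  separated h := by
    have := hX.separated h
    rw [← Over.w i]
    infer_instance

lemma empty_of_dim (X : Type) [TopologicalSpace X] (h : topologicalKrullDim X = ⊥) : IsEmpty X := by
  have h1 : IsEmpty (TopologicalSpace.IrreducibleCloseds X) := Order.krullDim_eq_bot_iff.mp h
  exact ⟨fun x => h1.elim ⟨closure {x}, isIrreducible_singleton.closure, isClosed_closure⟩⟩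

variable {k : Type} [Field k] {Ω : Type} [Field Ω] [CharZero Ω] [IsAlgClosed Ω] {q : ℕ}
  {D : Coh k Ω} (hq : 1 < q) (hD : IsCoh q D)

lemma dim_lt {n : ℕ} {d e : WithBot ℕ∞} (h1 : d + 1 ≤ e) (h2 : e ≤ ((n + 1 : ℕ) : WithBot ℕ∞)) :
    d ≤ n := by
  have h3 : d + 1 ≤ ((n : WithBot ℕ∞)) + 1 := by
    refine h1.trans (h2.trans ?_)
    push_cast
    exact le_rfl
  cases d using WithBot.recBotCoe with
  | bot => exact bot_le
  | coe d =>
    have h4 : ((d + 1 : ℕ∞) : WithBot ℕ∞) ≤ ((n + 1 : ℕ∞) : WithBot ℕ∞) := by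
      push_cast
      exact h3
    have h5 : d + 1 ≤ (n : ℕ∞) + 1 := WithBot.coe_le_coe.mp h4
    have h6 : d ≤ n := (ENat.add_le_add_iff_right ENat.one_ne_top).mp h5
    exact WithBot.coe_le_coe.mpr h6

lemma dim_bot {d e : WithBot ℕ∞} (h1 : d + 1 ≤ e) (h2 : e ≤ ((0 : ℕ) : WithBot ℕ∞)) : d = ⊥ := by
  cases d using WithBot.recBotCoe with
  | bot => rfl
  | coe d =>
    exfalso
    have h4 : ((d + 1 : ℕ∞) : WithBot ℕ∞) ≤ ((0 : ℕ∞) : WithBot ℕ∞) := by
      push_cast
      exact h1.trans (by simpa using h2)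
    have h5 : d + 1 ≤ (0 : ℕ∞) := WithBot.coe_le_coe.mp h4
    simp at h5

include hq hD

/-- From smooth proper schemes to all schemes, dimension by dimension. -/
theorem all_of_conj [PerfectField k] (hC : Compactifications k) (n : ℕ) (h : D.Conj q n) (X : Sch k)
    (hX : FT True X) (hn : topologicalKrullDim X.left ≤ n) : D.MW q X := by
  have hB := bnd_mw hq hD
  induction n generalizing X with
  | zero =>
    refine dim_smooth hB 0 (fun X hX hs hn => ?_) X hX hn
    obtain ⟨Z, Y, i, j, hY, ht, hYs, hYp, hd, hZ⟩ := hC X hX hs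
    refine hB.opened i j hY ht ?_ ((mw_proper hq hD hY hYs hYp).mpr (h Y hY hYs hYp (hd.trans hn)))
    exact p_isEmpty hB Z (ft_cl i hY ht.closed) (empty_of_dim _ (dim_bot hZ hn))
  | succ n ih =>
    refine dim_smooth hB (n + 1) (fun X hX hs hn => ?_) X hX hn
    obtain ⟨Z, Y, i, j, hY, ht, hYs, hYp, hd, hZ⟩ := hC X hX hs
    refine hB.opened i j hY ht ?_ ((mw_proper hq hD hY hYs hYp).mpr (h Y hY hYs hYp (hd.trans hn)))
    refine ih (fun X hX hs hp hn => h X hX hs hp (hn.trans ?_)) Z ?_ (dim_lt hZ hn)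
    · exact_mod_cast Nat.le_succ n
    · exact ft_cl i hY ht.closed

/-- The conjecture in dimension at most `n` for all smooth proper schemes and mw purity of all graded
pieces for all schemes. -/
theorem conj_iff [PerfectField k] (hC : Compactifications k) (n : ℕ) :
    D.Conj q n ↔ ∀ X : Sch k, FT True X → topologicalKrullDim X.left ≤ n → D.MW q X := by
  constructor
  · intro h X hX hn
    exact all_of_conj hq hD hC n h X hX hn
  · intro h X hX hs hp hn
    exact (mw_proper hq hD hX hs hp).mp (h X hX hn)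

/-- The conjecture in dimension at most `n` and trilinear forms. -/
theorem conj_tri [PerfectField k] (hC : Compactifications k) (n : ℕ) :
    D.Conj q n ↔ ∀ (a b c : ℕ) (T : Fin a → Fin b → Fin c → k),
      (a ≤ n + 2 ∨ b ≤ n + 2 ∨ c ≤ n + 2) → D.MW q (hypS T) := by
  have hB := bnd_mw hq hD
  rw [conj_iff hq hD hC]
  constructor
  · intro h a b c T hm
    have h2 : ∀ I : Ideal (MvPolynomial (Fin (n + 1)) k),
        D.MW q (aff k (MvPolynomial (Fin (n + 1)) k ⧸ I)) :=
      dim_to_closed hB fun A _ _ _ hA => h _ (ft_aff True) (by rw [topDim_aff]; exact hA)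
    exact of_block hB (fun a b c' hc' T => to_tri hB h2 a b c' hc' T) T hm
  · intro h
    exact (dim_tri hB n).mpr fun a b T => h a b (n + 2) T (Or.inr (Or.inr le_rfl))

/-- mw purity for all affine schemes -/
theorem all_iff [PerfectField k] (hC : Compactifications k) :
    (∀ n, D.Conj q n) ↔ ∀ X : Sch k, FT True X → D.MW q X := by
  have hB := bnd_mw hq hD
  constructor
  · intro h X hX
    refine of_affine' hB.iso hB.total (fun A _ _ _ => ?_) X hX
    obtain ⟨m, φ, hφ⟩ := Algebra.FiniteType.iff_quotient_mvPolynomial''.mp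
      (inferInstance : Algebra.FiniteType k A)
    refine all_of_conj hq hD hC m (h m) _ (ft_aff True) ?_
    rw [topDim_aff]
    have h1 := ringKrullDim_le_of_surjective (φ : MvPolynomial (Fin m) k →+* A) hφ
    refine h1.trans ?_
    rw [MvPolynomial.ringKrullDim_of_isNoetherianRing]
    simp
  · intro h n
    exact (conj_iff hq hD hC n).mpr fun X hX _ => h X hX

end Run7.h570.WM

namespace Run7.h570.WM

open Run7.h570.GH

/-- Over `ℚ`, the conjecture is equivalent to mw purity for the complements of graph hypersurfaces. -/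
theorem conj_graphs {Ω : Type} [Field Ω] [CharZero Ω] [IsAlgClosed Ω] {q : ℕ} {D : Coh ℚ Ω}
    (hq : 1 < q) (hD : IsCoh q D) (hC : Compactifications ℚ) :
    (∀ n, D.Conj q n) ↔ ∀ (n : ℕ) (Γ : SimpleGraph (Fin n)), D.MW q (complement ℚ Γ) := by
  rw [all_iff hq hD hC]
  exact iff_complement Run7.h798.UV.short_rat (gclo_of_bnd (bnd_mw hq hD))

end Run7.h570.WM
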