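import Pool.Agent.Run7.h570.WM.WD

/-!
# Tate twists and mw purity
-/

set_option autoImplicit false

open Module Pool.Agent.Y143 Pool.Agent.N184.HK Pool.Agent.N184.HK.P_FRM

namespace Run7.h570.WM

/-- `B` is the Tate twist `A(-m)`: the same space and the same `N`, and `Φ` is multiplied by `q ^ m`. -/
structure TwIso {Ω : Type} [Field Ω] (q m : ℕ) (A B : WD Ω) where
  /-- the isomorphism -/
  e : A.V ≃ₗ[Ω] B.V
  Φ : ∀ x, (q : Ω) ^ m • e (A.Φ x) = B.Φ (e x)
  N : ∀ x, e (A.N x) = B.N (e x)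

section

variable {Ω : Type} [Field Ω] [CharZero Ω] {q m : ℕ} {A B : WD Ω}

lemma tw_pow (t : TwIso q m A B) (j : ℕ) (x : A.V) : t.e ((A.N ^ j) x) = (B.N ^ j) (t.e x) := by
  induction j generalizing x with
  | zero => simp
  | succ j ih => rw [pow_succ, Module.End.mul_apply, ih, t.N, pow_succ, Module.End.mul_apply]

lemma tw_eig (t : TwIso q m A B) (α : Ω) {x : A.V} (hx : x ∈ A.Φ.maxGenEigenspace α) :
    t.e x ∈ B.Φ.maxGenEigenspace ((q : Ω) ^ m * α) := by
  rw [End.mem_maxGenEigenspace] at hx ⊢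
  obtain ⟨k, hk⟩ := hx
  refine ⟨k, ?_⟩
  have h : ∀ (k : ℕ) (y : A.V), ((B.Φ - ((q : Ω) ^ m * α) • (1 : Module.End Ω B.V)) ^ k) (t.e y) =
      ((q : Ω) ^ m) ^ k • t.e (((A.Φ - α • (1 : Module.End Ω A.V)) ^ k) y) := by
    intro k
    induction k with
    | zero => intro y; simp
    | succ k ih =>
      intro y
      have e1 : (B.Φ - ((q : Ω) ^ m * α) • (1 : Module.End Ω B.V)) (t.e y) =
          t.e ((q : Ω) ^ m • (A.Φ - α • (1 : Module.End Ω A.V)) y) := by
        simp only [LinearMap.sub_apply, LinearMap.smul_apply, Module.End.one_apply, map_sub, map_smul,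
          smul_sub, smul_smul, t.Φ]
      rw [pow_succ, Module.End.mul_apply, e1, ih, pow_succ (A.Φ - α • 1), Module.End.mul_apply,
        map_smul, map_smul, smul_smul, pow_succ ((q : Ω) ^ m)]
  rw [h, hk, map_zero, smul_zero]

lemma tw_symm_eig (hq : 1 < q) (t : TwIso q m A B) (α : Ω) {y : B.V}
    (hy : y ∈ B.Φ.maxGenEigenspace ((q : Ω) ^ m * α)) :
    t.e.symm y ∈ A.Φ.maxGenEigenspace α := by
  have hq0 : ((q : Ω) ^ m) ≠ 0 := pow_ne_zero _ (by exact_mod_cast (by omega : q ≠ 0))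
  rw [End.mem_maxGenEigenspace] at hy ⊢
  obtain ⟨k, hk⟩ := hy
  refine ⟨k, ?_⟩
  have h : ∀ (k : ℕ) (y : A.V), ((B.Φ - ((q : Ω) ^ m * α) • (1 : Module.End Ω B.V)) ^ k) (t.e y) =
      ((q : Ω) ^ m) ^ k • t.e (((A.Φ - α • (1 : Module.End Ω A.V)) ^ k) y) := by
    intro k
    induction k with
    | zero => intro y; simp
    | succ k ih =>
      intro y
      have e1 : (B.Φ - ((q : Ω) ^ m * α) • (1 : Module.End Ω B.V)) (t.e y) =
          t.e ((q : Ω) ^ m • (A.Φ - α • (1 : Module.End Ω A.V)) y) := by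
        simp only [LinearMap.sub_apply, LinearMap.smul_apply, Module.End.one_apply, map_sub, map_smul,
          smul_sub, smul_smul, t.Φ]
      rw [pow_succ, Module.End.mul_apply, e1, ih, pow_succ (A.Φ - α • 1), Module.End.mul_apply,
        map_smul, map_smul, smul_smul, pow_succ ((q : Ω) ^ m)]
  have h1 := h k (t.e.symm y)
  rw [t.e.apply_symm_apply, hk] at h1
  have h2 := (smul_eq_zero.mp h1.symm).resolve_left (pow_ne_zero _ hq0)
  exact (map_eq_zero_iff _ t.e.injective).mp h2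

lemma weil_tw {q : ℕ} (hq : 1 < q) (m : ℕ) {w : ℤ} {α : Ω} (h : IsWeilNumber q w α) :
    IsWeilNumber q (w + 2 * m) ((q : Ω) ^ m * α) := by
  have h1 := h.twist (by omega : q ≠ 0) (m : ℤ)
  rwa [zpow_natCast] at h1

lemma weil_untw {q : ℕ} (hq : 1 < q) (m : ℕ) {w : ℤ} {α : Ω} (h : IsWeilNumber q (w + 2 * m) α) :
    IsWeilNumber q w (((q : Ω) ^ m)⁻¹ * α) := by
  have h1 := h.twist (by omega : q ≠ 0) (-(m : ℤ))
  rw [zpow_neg, zpow_natCast, show w + 2 * (m : ℤ) + 2 * -(m : ℤ) = w by ring] at h1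
  exact h1

lemma tw_ES (hq : 1 < q) (t : TwIso q m A B) (w : ℤ) (x : A.V) :
    x ∈ ES A.Φ (WW Ω q w) ↔ t.e x ∈ ES B.Φ (WW Ω q (w + 2 * m)) := by
  have hq0 : ((q : Ω) ^ m) ≠ 0 := pow_ne_zero _ (by exact_mod_cast (by omega : q ≠ 0))
  constructor
  · intro hx
    have h : ES A.Φ (WW Ω q w) ≤ (ES B.Φ (WW Ω q (w + 2 * m))).comap t.e.toLinearMap :=
      ES_le A.Φ fun α hα x hx => le_ES B.Φ (weil_tw hq m hα) (tw_eig t α hx)
    exact h hx
  · intro hx
    have h : ES B.Φ (WW Ω q (w + 2 * m)) ≤ (ES A.Φ (WW Ω q w)).comap t.e.symm.toLinearMap := by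
      refine ES_le B.Φ fun α hα y hy => ?_
      have h1 : α = (q : Ω) ^ m * (((q : Ω) ^ m)⁻¹ * α) := by
        rw [← mul_assoc, mul_inv_cancel₀ hq0, one_mul]
      rw [h1] at hy
      exact le_ES A.Φ (weil_untw hq m hα) (tw_symm_eig hq t _ hy)
    have h2 := h hx
    rw [Submodule.mem_comap] at h2
    have h3 : t.e.symm.toLinearMap (t.e x) = x := t.e.symm_apply_apply x
    rwa [h3] at h2

/-- Tate twists preserve mw purity. -/
theorem pure_tw [IsAlgClosed Ω] (hq : 1 < q) (hA : A.Mixed q) (hB : B.Mixed q) (t : TwIso q m A B)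
    (w : ℤ) : A.Pure q w ↔ B.Pure q (w + 2 * m) := by
  rw [pure_iff hq hA, pure_iff hq hB]
  refine forall_congr' fun j => ?_
  have e1 : ∀ x, x ∈ ES A.Φ (WW Ω q (w + j)) ↔ t.e x ∈ ES B.Φ (WW Ω q (w + 2 * m + j)) := by
    intro x
    rw [tw_ES hq t, show w + (j : ℤ) + 2 * m = w + 2 * m + j by ring]
  have e2 : ∀ x, x ∈ ES A.Φ (WW Ω q (w - j)) ↔ t.e x ∈ ES B.Φ (WW Ω q (w + 2 * m - j)) := by
    intro x
    rw [tw_ES hq t, show w - (j : ℤ) + 2 * m = w + 2 * m - j by ring]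
  constructor
  · intro h
    refine ⟨fun y hy => ?_, fun y hy z hz hyz => ?_, fun y hy => ?_⟩
    · obtain ⟨x, rfl⟩ := t.e.surjective y
      have h1 := h.mapsTo ((e1 x).mpr hy)
      have h2 := (e2 _).mp h1
      rwa [tw_pow] at h2
    · obtain ⟨x, rfl⟩ := t.e.surjective y
      obtain ⟨x', rfl⟩ := t.e.surjective z
      have h1 : (A.N ^ j) x = (A.N ^ j) x' := t.e.injective (by rw [tw_pow, tw_pow]; exact hyz)
      rw [h.injOn ((e1 x).mpr hy) ((e1 x').mpr hz) h1]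
    · obtain ⟨x, rfl⟩ := t.e.surjective y
      obtain ⟨x', hx', h1⟩ := h.surjOn ((e2 x).mpr hy)
      refine ⟨t.e x', (e1 x').mp hx', ?_⟩
      rw [← tw_pow]
      exact congrArg _ h1
  · intro h
    refine ⟨fun x hx => ?_, fun x hx x' hx' hxx => ?_, fun x hx => ?_⟩
    · refine (e2 _).mpr ?_
      rw [tw_pow]
      exact h.mapsTo ((e1 x).mp hx)
    · refine t.e.injective (h.injOn ((e1 x).mp hx) ((e1 x').mp hx') ?_)
      rw [← tw_pow, ← tw_pow]
      exact congrArg _ hxx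
    · obtain ⟨y, hy, h1⟩ := h.surjOn ((e2 x).mp hx)
      obtain ⟨x', rfl⟩ := t.e.surjective y
      refine ⟨x', (e1 x').mpr hy, t.e.injective ?_⟩
      rw [tw_pow]
      exact h1

/-- The trivial representation is mw pure of weight `0`. -/
lemma pure_trivial [IsAlgClosed Ω] (hq : 1 < q) (hA : A.Mixed q) (hΦ : A.Φ = 1) (hN : A.N = 0) :
    A.Pure q 0 := by
  rw [pure_iff hq hA]
  have h1 : ∀ x : A.V, x ∈ ES A.Φ (WW Ω q 0) := by
    intro x
    refine le_ES A.Φ (e := (1 : Ω)) (IsWeilNumber.one q) ?_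
    rw [End.mem_maxGenEigenspace]
    exact ⟨1, by rw [hΦ]; simp⟩
  have h2 : ∀ (u : ℤ), u ≠ 0 → ∀ x ∈ ES A.Φ (WW Ω q u), x = 0 := by
    intro u hu x hx
    refine Submodule.disjoint_def.mp (ES_disjoint A.Φ (S := WW Ω q u) (T := WW Ω q 0) ?_) x hx (h1 x)
    rw [Set.disjoint_left]
    intro e he he'
    exact hu (weight_unique hq he he')
  intro j
  rcases Nat.eq_zero_or_pos j with rfl | hj
  · simp only [pow_zero, Nat.cast_zero, add_zero, sub_zero]
    exact Set.bijOn_id _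
  · refine ⟨fun x hx => ?_, fun x hx y hy _ => ?_, fun x hx => ?_⟩
    · rw [h2 _ (by omega) x hx, map_zero]
      exact zero_mem _
    · rw [h2 _ (by omega) x hx, h2 _ (by omega) y hy]
    · refine ⟨0, zero_mem _, ?_⟩
      rw [map_zero]
      exact (h2 _ (by omega) x hx).symm

end

end Run7.h570.WM
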