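import Pool.Agent.N184.HK.P_TOM
import Pool.Agent.N184.HK.P_FRM

/-!
# mw purity in long exact sequences
-/

set_option autoImplicit false

open Module Pool.Agent.Y143 Pool.Agent.N184.HK Pool.Agent.N184.HK.P_FRM

namespace Run7.h570.WM

/-- A finite-dimensional vector space with two endomorphisms: the action `Φ` of a geometric Frobenius
element and the logarithm `N` of the monodromy. -/
structure WD (Ω : Type) [Field Ω] where
  /-- the space -/
  V : Type
  /-- the group structure -/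
  grp : AddCommGroup V
  /-- the action of the scalars -/
  mod : Module Ω V
  /-- the dimension is finite -/
  fin : FiniteDimensional Ω V
  /-- the Frobenius -/
  Φ : Module.End Ω V
  /-- the logarithm of the monodromy -/
  N : Module.End Ω V

attribute [instance] WD.grp WD.mod WD.fin

/-- Linear maps which commute with `Φ` and `N`. -/
structure WD.Hom {Ω : Type} [Field Ω] (A B : WD Ω) where
  /-- the map -/
  f : A.V →ₗ[Ω] B.V
  Φ : ∀ x, f (A.Φ x) = B.Φ (f x)
  N : ∀ x, f (A.N x) = B.N (f x)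

/-- `A → B → C` is exact at `B`. -/
def WD.Exact {Ω : Type} [Field Ω] {A B C : WD Ω} (f : A.Hom B) (g : B.Hom C) : Prop :=
  ∀ y, g.f y = 0 ↔ ∃ x, f.f x = y

/-- The eigenvalues of `Φ` are `q`-Weil numbers of some integral weights, and `N Φ = q Φ N`. -/
structure WD.Mixed {Ω : Type} [Field Ω] [CharZero Ω] (q : ℕ) (A : WD Ω) : Prop where
  weil : ∀ e ∈ A.Φ.charpoly.roots, ∃ w : ℤ, IsWeilNumber q w e
  comm : ∀ x, A.N (A.Φ x) = (q : Ω) • A.Φ (A.N x)

/-- `A` is mw pure of weight `w`. -/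
def WD.Pure {Ω : Type} [Field Ω] [CharZero Ω] (q : ℕ) (w : ℤ) (A : WD Ω) : Prop :=
  IsMWPure q w A.Φ A.N

section maps

variable {Ω : Type} [Field Ω] {A B C : WD Ω}

lemma hom_pow (f : A.Hom B) (j : ℕ) (x : A.V) : f.f ((A.N ^ j) x) = (B.N ^ j) (f.f x) := by
  induction j generalizing x with
  | zero => simp
  | succ j ih => rw [pow_succ, Module.End.mul_apply, ih, f.N, pow_succ, Module.End.mul_apply]

lemma hom_eig (f : A.Hom B) (e : Ω) {x : A.V} (hx : x ∈ A.Φ.maxGenEigenspace e) :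
    f.f x ∈ B.Φ.maxGenEigenspace e := by
  rw [End.mem_maxGenEigenspace] at hx ⊢
  obtain ⟨k, hk⟩ := hx
  refine ⟨k, ?_⟩
  have h : ∀ (k : ℕ) (y : A.V), ((B.Φ - e • (1 : Module.End Ω B.V)) ^ k) (f.f y) =
      f.f (((A.Φ - e • (1 : Module.End Ω A.V)) ^ k) y) := by
    intro k
    induction k with
    | zero => intro y; simp
    | succ k ih =>
      intro y
      rw [pow_succ, Module.End.mul_apply, pow_succ, Module.End.mul_apply, ← ih]
      congr 1
      simp only [LinearMap.sub_apply, LinearMap.smul_apply, Module.End.one_apply, map_sub, map_smul,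
        f.Φ]
  rw [h, hk, map_zero]

lemma hom_ES (f : A.Hom B) (S : Set Ω) {x : A.V} (hx : x ∈ ES A.Φ S) : f.f x ∈ ES B.Φ S := by
  have h : ES A.Φ S ≤ (ES B.Φ S).comap f.f := ES_le A.Φ fun e he x hx => le_ES B.Φ he (hom_eig f e hx)
  exact h hx

/-- exactness on the parts -/
lemma exact_ES [IsAlgClosed Ω] {f : A.Hom B} {g : B.Hom C} (h : WD.Exact f g) (S : Set Ω) {y : B.V}
    (hy : y ∈ ES B.Φ S) (h0 : g.f y = 0) : ∃ x ∈ ES A.Φ S, f.f x = y := by
  obtain ⟨x, rfl⟩ := (h y).mp h0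
  obtain ⟨x₁, h1, x₂, h2, rfl⟩ := decomp A.Φ S ⊤ (fun _ _ => trivial) (x := x) trivial
  refine ⟨x₁, h1.2, ?_⟩
  have h3 : f.f x₂ ∈ ES B.Φ S := by
    have h4 : f.f x₂ = f.f (x₁ + x₂) - f.f x₁ := by rw [map_add, add_sub_cancel_left]
    rw [h4]
    exact sub_mem hy (hom_ES f S h1.2)
  have h5 : f.f x₂ = 0 :=
    Submodule.disjoint_def.mp (ES_disjoint B.Φ disjoint_compl_right) _ h3 (hom_ES f Sᶜ h2.2)
  rw [map_add, h5, add_zero]

end maps

section pure

variable {Ω : Type} [Field Ω] [CharZero Ω] [IsAlgClosed Ω] {q : ℕ} {w : ℤ}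

/-- mw purity by the parts of given weights -/
lemma pure_iff {A : WD Ω} (hq : 1 < q) (hA : A.Mixed q) : A.Pure q w ↔
    ∀ j : ℕ, Set.BijOn (⇑(A.N ^ j)) (ES A.Φ (WW Ω q (w + j)) : Set A.V)
      (ES A.Φ (WW Ω q (w - j)) : Set A.V) :=
  ⟨fun h => t_frm Ω A.V q hq w A.Φ A.N hA.weil hA.comm h,
    fun h => t_tom Ω A.V q hq w A.Φ A.N hA.weil hA.comm h⟩

lemma exact_comp {A B C : WD Ω} {f : A.Hom B} {g : B.Hom C} (h : WD.Exact f g) (x : A.V) :
    g.f (f.f x) = 0 := (h _).mpr ⟨x, rfl⟩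

/-- **mw purity in exact sequences** (five lemma). -/
theorem pure_five (hq : 1 < q) {A B C D E : WD Ω} (hA : A.Mixed q) (hB : B.Mixed q)
    (hC : C.Mixed q) (hD : D.Mixed q) (hE : E.Mixed q) {a : A.Hom B} {b : B.Hom C} {c : C.Hom D}
    {d : D.Hom E} (h1 : WD.Exact a b) (h2 : WD.Exact b c) (h3 : WD.Exact c d) (pA : A.Pure q w)
    (pB : B.Pure q w) (pD : D.Pure q w) (pE : E.Pure q w) : C.Pure q w := by
  rw [pure_iff hq hA] at pA
  rw [pure_iff hq hB] at pB
  rw [pure_iff hq hD] at pD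
  rw [pure_iff hq hE] at pE
  rw [pure_iff hq hC]
  intro j
  have hN : ∀ {F : WD Ω}, F.Mixed q → ∀ x ∈ ES F.Φ (WW Ω q (w + j)),
      (F.N ^ j) x ∈ ES F.Φ (WW Ω q (w - j)) := by
    intro F hF x hx
    have h := N_pow_W hq hF.comm j (w + j) hx
    rwa [show w + (j : ℤ) - 2 * j = w - j by ring] at h
  refine ⟨fun x hx => hN hC x hx, ?_, ?_⟩
  · -- injective
    have key : ∀ x ∈ ES C.Φ (WW Ω q (w + j)), (C.N ^ j) x = 0 → x = 0 := by
      intro x hx h0
      have e1 : c.f x = 0 := by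
        refine (pD j).injOn (hom_ES c _ hx) (zero_mem _) ?_
        rw [← hom_pow, h0, map_zero, map_zero]
      obtain ⟨y, hy, rfl⟩ := exact_ES h2 _ hx e1
      have e2 : b.f ((B.N ^ j) y) = 0 := by rw [hom_pow, h0]
      obtain ⟨z, hz, hz2⟩ := exact_ES h1 _ (hN hB y hy) e2
      obtain ⟨t, ht, rfl⟩ := (pA j).surjOn hz
      have e3 : y = a.f t := by
        refine (pB j).injOn hy (hom_ES a _ ht) ?_
        rw [← hom_pow]
        exact hz2.symm
      rw [e3]
      exact exact_comp h1 t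
    intro x hx y hy hxy
    have h4 := key (x - y) (sub_mem hx hy) (by rw [map_sub]; exact sub_eq_zero.mpr hxy)
    exact sub_eq_zero.mp h4
  · -- surjective
    intro y hy
    obtain ⟨u, hu, hu2⟩ := (pD j).surjOn (hom_ES c _ hy)
    have e1 : d.f u = 0 := by
      refine (pE j).injOn (hom_ES d _ hu) (zero_mem _) ?_
      rw [← hom_pow]
      have : (D.N ^ j) u = c.f y := hu2
      rw [this, exact_comp h3, map_zero]
    obtain ⟨x, hx, rfl⟩ := exact_ES h3 _ hu e1
    have e2 : c.f (y - (C.N ^ j) x) = 0 := by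
      rw [map_sub, hom_pow]
      exact sub_eq_zero.mpr hu2.symm
    obtain ⟨z, hz, hz2⟩ := exact_ES h2 _ (sub_mem hy (hN hC x hx)) e2
    obtain ⟨t, ht, rfl⟩ := (pB j).surjOn hz
    refine ⟨x + b.f t, add_mem hx (hom_ES b _ ht), ?_⟩
    rw [map_add, ← hom_pow, hz2]
    abel

/-- A zero space is mw pure of every weight. -/
lemma pure_zero (hq : 1 < q) {A : WD Ω} (hA : A.Mixed q) (h : Subsingleton A.V) : A.Pure q w := by
  rw [pure_iff hq hA]
  intro j
  refine ⟨fun x _ => ?_, fun x _ y _ _ => Subsingleton.elim _ _, fun x _ => ⟨x, ?_, ?_⟩⟩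
  · rw [Subsingleton.elim ((A.N ^ j) x) 0]
    exact zero_mem _
  · rw [Subsingleton.elim x 0]
    exact zero_mem _
  · exact Subsingleton.elim _ _

/-- A retract of an mw pure space is mw pure. -/
lemma pure_retract (hq : 1 < q) {A B : WD Ω} (hA : A.Mixed q) (hB : B.Mixed q) (s : A.Hom B)
    (r : B.Hom A) (hrs : ∀ x, r.f (s.f x) = x) (h : B.Pure q w) : A.Pure q w := by
  rw [pure_iff hq hB] at h
  rw [pure_iff hq hA]
  intro j
  refine ⟨fun x hx => ?_, fun x hx y hy hxy => ?_, fun y hy => ?_⟩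
  · have h := N_pow_W hq hA.comm j (w + j) hx
    rwa [show w + (j : ℤ) - 2 * j = w - j by ring] at h
  · have h1 : s.f x = s.f y := by
      refine (h j).injOn (hom_ES s _ hx) (hom_ES s _ hy) ?_
      rw [← hom_pow, ← hom_pow]
      exact congrArg _ hxy
    rw [← hrs x, ← hrs y, h1]
  · obtain ⟨x, hx, hx2⟩ := (h j).surjOn (hom_ES s _ hy)
    refine ⟨r.f x, hom_ES r _ hx, ?_⟩
    rw [← hom_pow]
    have : (B.N ^ j) x = s.f y := hx2
    rw [this, hrs]

end pure

end Run7.h570.WM
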